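import Mathlib

/-!
Exponential IP sets (Sisto): the sets `FE^I(X)` and `FE^II(X)` of an infinite set
`X = {x 0 < x 1 < x 2 < ...}` of natural numbers, given here by its increasing enumeration `x`.
-/

namespace Pool.Agent.Helper542ExpIP

/-- `FE^I_n(X)` for the infinite set `X` enumerated increasingly by `x`. -/
def FEI (x : ℕ → ℕ) : ℕ → Set ℕ
  | 0 => {x 0}
  | n + 1 => {z | ∃ y ∈ FEI x n, z = y ^ x (n + 1)} ∪ FEI x n ∪ {x (n + 1)}

/-- `FE^II_n(X)` for the infinite set `X` enumerated increasingly by `x`. -/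
def FEII (x : ℕ → ℕ) : ℕ → Set ℕ
  | 0 => {x 0}
  | n + 1 => {z | ∃ y ∈ FEII x n, z = x (n + 1) ^ y} ∪ FEII x n ∪ {x (n + 1)}

/-- `C` is an exponential IP set of type I. -/
def IsExpIPI (C : Set ℕ) : Prop :=
  ∃ x : ℕ → ℕ, StrictMono x ∧ ∀ n, FEI x n ⊆ C

/-- `C` is an exponential IP set of type II. -/
def IsExpIPII (C : Set ℕ) : Prop :=
  ∃ x : ℕ → ℕ, StrictMono x ∧ ∀ n, FEII x n ⊆ C

end Pool.Agent.Helper542ExpIP
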