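import Mathlib
import Pool.Agent.Helper542_expip.Defs

namespace Pool.Agent.Helper542ExpIP

/-- tower function -/
def T : ℕ → ℕ
  | 0 => 1
  | m + 1 => 2 ^ T m

lemma T_succ (m : ℕ) : T (m + 1) = 2 ^ T m := rfl

lemma T_lt_succ (m : ℕ) : T m < T (m + 1) := by
  rw [T_succ]; exact Nat.lt_two_pow_self

lemma T_strictMono : StrictMono T := strictMono_nat_of_lt_succ T_lt_succ

lemma lt_T (m : ℕ) : m < T m := by
  induction m with
  | zero => simp [T]
  | succ m ih => exact lt_of_le_of_lt ih (T_lt_succ m)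

lemma T_big (m : ℕ) (hm : 3 ≤ m) : 2 * m + 5 ≤ T m := by
  induction m, hm using Nat.le_induction with
  | base => simp [T]
  | succ m hm ih =>
    rw [T_succ]
    have h1 : T m < 2 ^ (T m) := Nat.lt_two_pow_self
    have h2 : 2 * m + 5 + (2 * m + 5) ≤ 2 ^ (T m) := by
      calc 2 * m + 5 + (2 * m + 5) ≤ T m + T m := by omega
        _ ≤ 2 ^ (T m) := by
          obtain ⟨k, hk⟩ : ∃ k, T m = k + 1 := ⟨T m - 1, by omega⟩
          rw [hk, pow_succ]
          have : k < 2 ^ k := Nat.lt_two_pow_self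
          omega
    omega

/-- `s` is just below a tower number. -/
def near (s : ℕ) : Prop := ∃ m, s < T m ∧ T m ≤ s + m

/-- `s` lies in an even level. -/
def evlev (s : ℕ) : Prop := ∃ m, Even m ∧ T m ≤ s ∧ s < T (m + 1)

open Classical in
/-- the 3-colouring -/
noncomputable def col (n : ℕ) : Fin 3 :=
  if near (Nat.log 2 n) then 2 else if evlev (Nat.log 2 n) then 0 else 1

lemma log_pow_bounds {a b : ℕ} (ha : 2 ≤ a) (hb : 1 ≤ b) :
    b * Nat.log 2 a ≤ Nat.log 2 (a ^ b) ∧ Nat.log 2 (a ^ b) < b * (Nat.log 2 a + 1) := by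
  constructor
  · apply Nat.le_log_of_pow_le (by norm_num)
    calc 2 ^ (b * Nat.log 2 a) = (2 ^ Nat.log 2 a) ^ b := by rw [← pow_mul, mul_comm]
      _ ≤ a ^ b := Nat.pow_le_pow_left (Nat.pow_log_le_self 2 (by omega)) b
  · apply Nat.log_lt_of_lt_pow (by positivity)
    calc a ^ b < (2 ^ (Nat.log 2 a + 1)) ^ b :=
          Nat.pow_lt_pow_left (Nat.lt_pow_succ_log_self (by norm_num) a) (by omega)
      _ = 2 ^ (b * (Nat.log 2 a + 1)) := by rw [← pow_mul, mul_comm]

lemma exists_level (s : ℕ) (hs : 1 ≤ s) : ∃ m, T m ≤ s ∧ s < T (m + 1) := by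
  by_contra hcon
  push Not at hcon
  have : ∀ m, T m ≤ s := by
    intro m
    induction m with
    | zero => simpa [T] using hs
    | succ m ih => exact hcon m ih
  have h1 := this s
  have h2 := lt_T s
  omega

lemma level_unique {s m m' : ℕ} (h : T m ≤ s ∧ s < T (m + 1)) (h' : T m' ≤ s ∧ s < T (m' + 1)) :
    m = m' := by
  rcases lt_trichotomy m m' with hlt | heq | hgt
  · have : T (m + 1) ≤ T m' := T_strictMono.monotone hlt
    omega
  · exact heq
  · have : T (m' + 1) ≤ T m := T_strictMono.monotone hgt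
    omega

/-- far from the towers the level goes up by exactly one -/
lemma level_step {a b m : ℕ} (ha : 2 ≤ a) (hm : Nat.log 2 a + 1 ≤ m)
    (hs : T m ≤ Nat.log 2 b) (hs2 : Nat.log 2 b < T (m + 1)) (hnn : ¬ near (Nat.log 2 b)) :
    T (m + 1) ≤ Nat.log 2 (a ^ b) ∧ Nat.log 2 (a ^ b) < T (m + 2) := by
  have hb0 : b ≠ 0 := by
    rintro rfl
    have := lt_T m
    simp at hs
    omega
  have hb := log_pow_bounds ha (Nat.one_le_iff_ne_zero.mpr hb0)
  have hl : 1 ≤ Nat.log 2 a := Nat.le_log_of_pow_le (by norm_num) (by simpa using ha)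
  have hb1 : 2 ^ Nat.log 2 b ≤ b := Nat.pow_log_le_self 2 hb0
  have hb2 : b < 2 ^ (Nat.log 2 b + 1) := Nat.lt_pow_succ_log_self (by norm_num) b
  constructor
  · calc T (m + 1) = 2 ^ T m := rfl
      _ ≤ 2 ^ Nat.log 2 b := Nat.pow_le_pow_right (by norm_num) hs
      _ ≤ b := hb1
      _ = b * 1 := (mul_one b).symm
      _ ≤ b * Nat.log 2 a := Nat.mul_le_mul_left b hl
      _ ≤ _ := hb.1
  · have hfar : Nat.log 2 b + (m + 1) < T (m + 1) := by
      by_contra hcon
      exact hnn ⟨m + 1, hs2, by omega⟩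
    have hl2 : Nat.log 2 a + 1 ≤ 2 ^ m := le_trans hm (Nat.lt_two_pow_self).le
    calc Nat.log 2 (a ^ b) < b * (Nat.log 2 a + 1) := hb.2
      _ ≤ 2 ^ (Nat.log 2 b + 1) * 2 ^ m := Nat.mul_le_mul hb2.le hl2
      _ = 2 ^ (Nat.log 2 b + 1 + m) := (pow_add _ _ _).symm
      _ ≤ 2 ^ T (m + 1) := Nat.pow_le_pow_right (by norm_num) (by omega)
      _ = T (m + 2) := rfl

lemma two_mul_pow_aux (t : ℕ) (ht : 4 ≤ t) : t * t ≤ 2 ^ t := by
  induction t, ht using Nat.le_induction with
  | base => norm_num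
  | succ t ht ih =>
    rw [pow_succ]
    nlinarith

/-- if `b` is just below a tower then `near (log a^b)` pins the tower down -/
lemma near_pin {a b m : ℕ} (ha : 2 ≤ a) (hm : Nat.log 2 a + 1 ≤ m) (hm3 : 3 ≤ m)
    (hs : Nat.log 2 b < T m) (hs2 : T m ≤ Nat.log 2 b + m) (hn : near (Nat.log 2 (a ^ b))) :
    Nat.log 2 (a ^ b) < T (m + 1) ∧ T (m + 1) ≤ Nat.log 2 (a ^ b) + (m + 1) := by
  obtain ⟨M, hM1, hM2⟩ := hn
  have hTm := T_big m hm3
  have hb0 : b ≠ 0 := by
    rintro rfl
    simp at hs2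
    omega
  have hb := log_pow_bounds ha (Nat.one_le_iff_ne_zero.mpr hb0)
  have hl : 1 ≤ Nat.log 2 a := Nat.le_log_of_pow_le (by norm_num) (by simpa using ha)
  have hb1 : 2 ^ Nat.log 2 b ≤ b := Nat.pow_log_le_self 2 hb0
  have hb2 : b < 2 ^ (Nat.log 2 b + 1) := Nat.lt_pow_succ_log_self (by norm_num) b
  have hb3 : b < T (m + 1) := by
    calc b < 2 ^ (Nat.log 2 b + 1) := hb2
      _ ≤ 2 ^ T m := Nat.pow_le_pow_right (by norm_num) (by omega)
      _ = T (m + 1) := rfl
  -- M ≥ m + 1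
  have h1 : m + 1 ≤ M := by
    by_contra hcon
    have hle : M ≤ m := by omega
    have : T M ≤ T m := T_strictMono.monotone hle
    have h2 : b ≤ Nat.log 2 (a ^ b) := le_trans (by nlinarith) hb.1
    -- b ≥ 2 ^ (T m - m) ≥ T m
    have h3 : T m ≤ b := by
      have h4 : T m - m ≤ Nat.log 2 b := by omega
      have h5 : 2 ^ (T m - m) ≤ b := le_trans (Nat.pow_le_pow_right (by norm_num) h4) hb1
      have h6 : (T m - m) * (T m - m) ≤ 2 ^ (T m - m) := two_mul_pow_aux _ (by omega)
      have h7 : T m ≤ (T m - m) * (T m - m) := by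
        obtain ⟨k, hk⟩ : ∃ k, T m = m + k := ⟨T m - m, by omega⟩
        have : T m - m = k := by omega
        rw [this, hk]
        have hk5 : m + 5 ≤ k := by omega
        nlinarith
      omega
    omega
  have h2 : M ≤ m + 1 := by
    by_contra hcon
    have hge : m + 2 ≤ M := by omega
    -- T M ≤ log + M < b (ℓ+1) + M
    have h3 : T M < T (m + 1) * (Nat.log 2 a + 1) + M := by
      have : b * (Nat.log 2 a + 1) ≤ T (m + 1) * (Nat.log 2 a + 1) :=
        Nat.mul_le_mul_right _ hb3.le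
      omega
    -- growth
    have key : ∀ M, m + 2 ≤ M → T (m + 1) * (Nat.log 2 a + 1) + M ≤ T M := by
      intro M hM
      induction M, hM using Nat.le_induction with
      | base =>
        have h4 := two_mul_pow_aux (T (m + 1)) (by have := T_big (m+1) (by omega); omega)
        have h5 := T_big (m + 1) (by omega)
        calc T (m + 1) * (Nat.log 2 a + 1) + (m + 2)
            ≤ T (m + 1) * m + T (m + 1) := by
              have := Nat.mul_le_mul_left (T (m + 1)) hm
              omega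
          _ = T (m + 1) * (m + 1) := by ring
          _ ≤ T (m + 1) * T (m + 1) := Nat.mul_le_mul_left _ (by omega)
          _ ≤ 2 ^ T (m + 1) := h4
      | succ M hM ih =>
        have := T_lt_succ M
        omega
    have := key M hge
    omega
  have h3 : M = m + 1 := by omega
  subst h3
  exact ⟨hM1, hM2⟩

lemma mem_FEI_self (x : ℕ → ℕ) (n : ℕ) : x n ∈ FEI x n := by
  cases n with
  | zero => simp [FEI]
  | succ n => simp [FEI]

lemma FEI_mono (x : ℕ → ℕ) {m n : ℕ} (h : m ≤ n) : FEI x m ⊆ FEI x n := by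
  induction n, h using Nat.le_induction with
  | base => exact subset_rfl
  | succ n hmn ih =>
    intro z hz
    exact Or.inl (Or.inr (ih hz))

lemma pow_mem_FEI (x : ℕ → ℕ) {i j : ℕ} (h : i < j) : x i ^ x j ∈ FEI x j := by
  obtain ⟨k, rfl⟩ : ∃ k, j = k + 1 := ⟨j - 1, by omega⟩
  refine Or.inl (Or.inl ⟨x i, FEI_mono x (by omega) (mem_FEI_self x i), rfl⟩)

theorem typeI_three : ∀ i : Fin 3, ¬ IsExpIPI {n | col n = i} := by
  rintro i ⟨x, hx, hsub⟩
  have hle : ∀ n, n ≤ x n := fun n => hx.id_le n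
  have hc1 : ∀ n, col (x n) = i := fun n => hsub n (mem_FEI_self x n)
  have hc2 : ∀ {p q}, p < q → col (x p ^ x q) = i := fun {p q} h => hsub q (pow_mem_FEI x h)
  -- choose a = x 2
  have ha : 2 ≤ x 2 := hle 2
  set ℓ := Nat.log 2 (x 2) with hℓ
  -- choose a' = x k, log a' ≥ 2 (ℓ + 1)
  obtain ⟨k, hk2, hk⟩ : ∃ k, 2 < k ∧ 2 * (ℓ + 1) ≤ Nat.log 2 (x k) := by
    refine ⟨2 ^ (2 * (ℓ + 1)), ?_, ?_⟩
    · have : (2 : ℕ) ^ 2 ≤ 2 ^ (2 * (ℓ + 1)) := Nat.pow_le_pow_right (by norm_num) (by omega)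
      omega
    · exact Nat.le_log_of_pow_le (by norm_num) (hle _)
  set ℓ' := Nat.log 2 (x k) with hℓ'
  have ha' : 2 ≤ x k := le_trans (by omega) (hle k)
  -- choose b = x j with log b ≥ T (ℓ' + 4)
  obtain ⟨j, hj⟩ : ∃ j, j = 2 ^ T (ℓ' + 4) + k + 1 := ⟨_, rfl⟩
  have hpos : 0 < 2 ^ T (ℓ' + 4) := by positivity
  have hkj : k < j := by rw [hj]; exact Nat.lt_succ_of_le (Nat.le_add_left _ _)
  have hlogb : T (ℓ' + 4) ≤ Nat.log 2 (x j) := by
    apply Nat.le_log_of_pow_le (by norm_num)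
    refine le_trans ?_ (hle j)
    rw [hj, add_assoc]
    exact Nat.le_add_right _ _
  by_cases hnear : near (Nat.log 2 (x j))
  · -- then colour is 2
    have hi : i = 2 := by
      rw [← hc1 j, col, if_pos hnear]
    have hz : ∀ {p}, p < j → near (Nat.log 2 (x p ^ x j)) := by
      intro p hp
      by_contra hcon
      have h1 := hc2 hp
      rw [col, if_neg hcon, hi] at h1
      split_ifs at h1 <;> simp at h1
    obtain ⟨m, hm1, hm2⟩ := hnear
    have hmbig : ℓ' + 5 ≤ m := by
      by_contra hcon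
      have : T m ≤ T (ℓ' + 4) := T_strictMono.monotone (by omega)
      omega
    have p1 := near_pin ha (by omega) (by omega) hm1 hm2 (hz (p := 2) (by omega))
    have p2 := near_pin ha' (by omega) (by omega) hm1 hm2 (hz (p := k) hkj)
    have hb0 : 1 ≤ x j := le_trans (by omega) (hle j)
    have q1 := log_pow_bounds ha hb0
    have q2 := log_pow_bounds ha' hb0
    have hT := T_big (m + 1) (by omega)
    have q3 : x j * (2 * (ℓ + 1)) ≤ x j * ℓ' := Nat.mul_le_mul_left _ hk
    have q4 : x j * (2 * (ℓ + 1)) = 2 * (x j * (ℓ + 1)) := by ring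
    rw [← hℓ] at q1
    rw [← hℓ'] at q2
    omega
  · -- colour 0 or 1
    obtain ⟨m, hm1, hm2⟩ := exists_level (Nat.log 2 (x j)) (by have := lt_T (ℓ' + 4); omega)
    have hmbig : ℓ' + 4 ≤ m := by
      by_contra hcon
      have : T (m + 1) ≤ T (ℓ' + 4) := T_strictMono.monotone (by omega)
      omega
    have hstep := level_step ha (by omega) hm1 hm2 hnear (m := m)
    have e1 := hc1 j
    have e2 := hc2 (p := 2) (q := j) (by omega)
    rw [col, if_neg hnear] at e1
    by_cases hnz : near (Nat.log 2 (x 2 ^ x j))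
    · rw [col, if_pos hnz] at e2
      rw [← e2] at e1
      split_ifs at e1 <;> simp at e1
    · rw [col, if_neg hnz] at e2
      by_cases hev : Even m
      · have h1 : evlev (Nat.log 2 (x j)) := ⟨m, hev, hm1, hm2⟩
        have h2 : ¬ evlev (Nat.log 2 (x 2 ^ x j)) := by
          rintro ⟨m', hm', h3, h4⟩
          have := level_unique ⟨h3, h4⟩ hstep
          subst this
          exact (Nat.even_add_one.mp hm') hev
        rw [if_pos h1] at e1
        rw [if_neg h2] at e2
        rw [← e1] at e2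
        simp at e2
      · have h1 : ¬ evlev (Nat.log 2 (x j)) := by
          rintro ⟨m', hm', h3, h4⟩
          have := level_unique ⟨h3, h4⟩ ⟨hm1, hm2⟩
          subst this
          exact hev hm'
        have h2 : evlev (Nat.log 2 (x 2 ^ x j)) := ⟨m + 1, Nat.even_add_one.mpr hev, hstep.1, hstep.2⟩
        rw [if_neg h1] at e1
        rw [if_pos h2] at e2
        rw [← e1] at e2
        simp at e2

lemma not_near_of {s : ℕ} (h3 : s + 3 < 16) (h0 : ¬ (s < 1 ∧ 1 ≤ s + 0))
    (h1 : ¬ (s < 2 ∧ 2 ≤ s + 1)) (h2 : ¬ (s < 4 ∧ 4 ≤ s + 2)) : ¬ near s := by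
  rintro ⟨m, hm1, hm2⟩
  have hT0 : T 0 = 1 := rfl
  have hT1 : T 1 = 2 := rfl
  have hT2 : T 2 = 4 := rfl
  have hT3 : T 3 = 16 := rfl
  match m, hm1, hm2 with
  | 0, hm1, hm2 => rw [hT0] at hm1 hm2; exact h0 ⟨hm1, hm2⟩
  | 1, hm1, hm2 => rw [hT1] at hm1 hm2; exact h1 ⟨hm1, hm2⟩
  | 2, hm1, hm2 => rw [hT2] at hm1 hm2; exact h2 ⟨hm1, hm2⟩
  | m + 3, hm1, hm2 =>
    have key : ∀ m, s + (m + 3) < T (m + 3) := by
      intro m
      induction m with
      | zero => rw [hT3]; omega
      | succ m ih =>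
        have := T_lt_succ (m + 3)
        have e : m + 1 + 3 = m + 3 + 1 := by omega
        rw [e]
        omega
    have := key m
    omega

theorem col_surjective : Function.Surjective col := by
  intro i
  have hT0 : T 0 = 1 := rfl
  have hT1 : T 1 = 2 := rfl
  have hT2 : T 2 = 4 := rfl
  have hT3 : T 3 = 16 := rfl
  fin_cases i
  · refine ⟨16, ?_⟩
    have e : Nat.log 2 16 = 4 := by
      rw [show (16 : ℕ) = 2 ^ 4 by norm_num, Nat.log_pow (by norm_num)]
    have h1 : ¬ near (Nat.log 2 16) := by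
      rw [e]; exact not_near_of (by norm_num) (by omega) (by omega) (by omega)
    have h2 : evlev (Nat.log 2 16) := by
      rw [e]; exact ⟨2, by decide, by rw [hT2], by rw [hT3]; norm_num⟩
    simp only [col, if_neg h1, if_pos h2]
    rfl
  · refine ⟨1, ?_⟩
    have e : Nat.log 2 1 = 0 := by simp
    have h1 : ¬ near (Nat.log 2 1) := by
      rw [e]; exact not_near_of (by norm_num) (by omega) (by omega) (by omega)
    have h2 : ¬ evlev (Nat.log 2 1) := by
      rw [e]
      rintro ⟨m, _, hm, _⟩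
      have := lt_T m
      omega
    simp only [col, if_neg h1, if_neg h2]
    rfl
  · refine ⟨2, ?_⟩
    have e : Nat.log 2 2 = 1 := by
      have := Nat.log_pow (b := 2) (by norm_num) 1
      simpa using this
    have h1 : near (Nat.log 2 2) := by
      rw [e]; exact ⟨1, by rw [hT1]; norm_num, by rw [hT1]⟩
    simp only [col, if_pos h1]
    rfl

end Pool.Agent.Helper542ExpIP
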