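import Mathlib
import Pool.Agent.Helper542_expip.Defs

namespace Pool.Agent.Helper542ExpIP

open Filter Finset

/-- piecewise syndetic: bounded gaps on arbitrarily long intervals -/
def PS (A : Set ℕ) : Prop := ∃ g : ℕ, ∀ N : ℕ, ∃ x : ℕ, ∀ y, x ≤ y → y < x + N → ∃ s ≤ g, y + s ∈ A

lemma PS.mono {A B : Set ℕ} (h : A ⊆ B) (hA : PS A) : PS B := by
  obtain ⟨g, hg⟩ := hA
  refine ⟨g, fun N => ?_⟩
  obtain ⟨x, hx⟩ := hg N
  refine ⟨x, fun y h1 h2 => ?_⟩
  obtain ⟨s, hs, hs2⟩ := hx y h1 h2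
  exact ⟨s, hs, h hs2⟩

lemma PS.exists_ge {A : Set ℕ} (hA : PS A) (B : ℕ) : ∃ m ∈ A, B ≤ m := by
  obtain ⟨g, hg⟩ := hA
  obtain ⟨x, hx⟩ := hg (B + 1)
  obtain ⟨s, hs, hs2⟩ := hx (x + B) (by omega) (by omega)
  exact ⟨_, hs2, by omega⟩

lemma PS.union {A B : Set ℕ} (h : PS (A ∪ B)) : PS A ∨ PS B := by
  by_contra hcon
  push Not at hcon
  obtain ⟨hA, hB⟩ := hcon
  obtain ⟨g, hg⟩ := h
  -- B is not PS with gap g
  have hB' : ∃ N, ∀ x, ∃ y, x ≤ y ∧ y < x + N ∧ ∀ s ≤ g, y + s ∉ B := by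
    by_contra hc
    push Not at hc
    exact hB ⟨g, hc⟩
  obtain ⟨N₀, hN₀⟩ := hB'
  apply hA
  refine ⟨N₀ + g, fun N => ?_⟩
  obtain ⟨x, hx⟩ := hg (N + N₀)
  refine ⟨x, fun y h1 h2 => ?_⟩
  obtain ⟨y', h3, h4, h5⟩ := hN₀ y
  obtain ⟨s, hs, hs2⟩ := hx y' (by omega) (by omega)
  have h6 : y' + s ∈ A := by
    rcases hs2 with h | h
    · exact h
    · exact absurd h (h5 s hs)
  refine ⟨y' + s - y, by omega, ?_⟩
  have : y + (y' + s - y) = y' + s := by omega
  rw [this]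
  exact h6

lemma PS.biUnion {ι : Type*} (S : Finset ι) (A : ι → Set ℕ) (h : PS (⋃ i ∈ S, A i)) :
    ∃ i ∈ S, PS (A i) := by
  classical
  induction S using Finset.induction_on with
  | empty =>
    exfalso
    obtain ⟨m, hm, _⟩ := h.exists_ge 0
    simp at hm
  | insert a S ha ih =>
    rw [Finset.set_biUnion_insert] at h
    rcases h.union with h | h
    · exact ⟨a, Finset.mem_insert_self _ _, h⟩
    · obtain ⟨i, hi, hi2⟩ := ih h
      exact ⟨i, Finset.mem_insert_of_mem hi, hi2⟩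

lemma PS_univ : PS Set.univ := ⟨0, fun _ => ⟨0, fun _ _ _ => ⟨0, le_rfl, trivial⟩⟩⟩

/-- the set of `a ∈ A` with `a + f * b ∈ A` for all `f ∈ F` -/
def ret (A : Set ℕ) (F : Finset ℕ) (b : ℕ) : Set ℕ := {a | a ∈ A ∧ ∀ f ∈ F, a + f * b ∈ A}

/-- IP van der Waerden for piecewise syndetic sets. -/
lemma ip_vdw {A : Set ℕ} (hA : PS A) (F : Finset ℕ) (b : ℕ → ℕ) :
    ∃ S : Finset ℕ, S.Nonempty ∧ PS (ret A F (∑ i ∈ S, b i)) := by
  classical
  obtain ⟨g, hg⟩ := hA
  -- alphabet: insert 0 F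
  let α := ↥(insert 0 F)
  obtain ⟨ι, hι, hHJ⟩ := Combinatorics.Line.exists_mono_in_high_dimension α (Fin (g + 1))
  let e : ι ≃ Fin (Fintype.card ι) := Fintype.equivFin ι
  let β : ι → ℕ := fun i => b (e i)
  let val : (ι → α) → ℕ := fun w => ∑ i, (w i : ℕ) * β i
  obtain ⟨L, hL⟩ : ∃ L, ∀ w : ι → α, val w ≤ L :=
    ⟨(Finset.univ : Finset (ι → α)).sup val, fun w => Finset.le_sup (Finset.mem_univ w)⟩
  -- family of nonempty subsets of Fin card
  let K := (Finset.range (Fintype.card ι)).powerset.filter (fun S => S.Nonempty)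
  have hcover : PS (⋃ S ∈ K, ret A F (∑ i ∈ S, b i)) := by
    refine ⟨L + g, fun N => ?_⟩
    obtain ⟨x, hx⟩ := hg (N + L + 1)
    refine ⟨x, fun y h1 h2 => ?_⟩
    have hs : ∀ w : ι → α, ∃ s ≤ g, y + val w + s ∈ A := fun w =>
      hx (y + val w) (by omega) (by have := hL w; omega)
    choose s hs1 hs2 using hs
    obtain ⟨l, c, hc⟩ := hHJ (fun w => (⟨s w, Nat.lt_succ_of_le (hs1 w)⟩ : Fin (g + 1)))
    have hc' : ∀ f, s (l f) = c.val := fun f => by
      have := hc f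
      exact congrArg Fin.val this
    -- variable coordinates
    let V : Finset ι := Finset.univ.filter (fun i => l.idxFun i = none)
    have hV : V.Nonempty := by
      obtain ⟨i, hi⟩ := l.proper
      exact ⟨i, by simp [V, hi]⟩
    let z : α := ⟨0, by simp⟩
    have hval : ∀ f : α, val (l f) = val (l z) + (f : ℕ) * ∑ i ∈ V, β i := by
      intro f
      have h3 : ∀ i, ((l f i : α) : ℕ) * β i
          = ((l z i : α) : ℕ) * β i + (if l.idxFun i = none then (f : ℕ) * β i else 0) := by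
        intro i
        cases hi : l.idxFun i with
        | none => simp [hi, z]
        | some a => simp [hi]
      simp only [val]
      rw [Finset.sum_congr rfl (fun i _ => h3 i), Finset.sum_add_distrib]
      congr 1
      rw [Finset.mul_sum, Finset.sum_filter]
    let S : Finset ℕ := V.image (fun i => (e i : ℕ))
    have hSsum : ∑ i ∈ S, b i = ∑ i ∈ V, β i := by
      rw [Finset.sum_image]
      intro i _ j _ hij
      exact e.injective (Fin.val_injective hij)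
    have hSK : S ∈ K := by
      simp only [K, Finset.mem_filter, Finset.mem_powerset]
      refine ⟨?_, hV.image _⟩
      intro n hn
      simp only [S, Finset.mem_image] at hn
      obtain ⟨i, _, rfl⟩ := hn
      exact Finset.mem_range.mpr (e i).isLt
    refine ⟨val (l z) + c.val, ?_, ?_⟩
    · have := hL (l z)
      have := Nat.lt_succ_iff.mp c.isLt
      omega
    · simp only [Set.mem_iUnion]
      refine ⟨S, hSK, ?_, ?_⟩
      · have := hs2 (l z)
        rw [hc'] at this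
        rwa [← add_assoc]
      · intro f hf
        have h4 := hs2 (l ⟨f, Finset.mem_insert_of_mem hf⟩)
        rw [hc', hval] at h4
        rw [hSsum]
        have e1 : y + (val (l z) + c.val) + f * ∑ i ∈ V, β i
          = y + (val (l z) + f * ∑ i ∈ V, β i) + c.val := by ring
        rw [e1]
        exact h4
  obtain ⟨S, hS, hS2⟩ := PS.biUnion K _ hcover
  exact ⟨S, (Finset.mem_filter.mp hS).2, hS2⟩

attribute [local instance] Ultrafilter.add Ultrafilter.addSemigroup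

/-- existence of an idempotent ultrafilter on the natural numbers other than the one at `0` -/
lemma exists_idem : ∃ U : Ultrafilter ℕ, U + U = U ∧ ∀ᶠ m in (U : Filter ℕ), 1 ≤ m := by
  obtain ⟨U, hU, hU2⟩ := Hindman.exists_idempotent_ultrafilter_le_FS (M := ℕ) (Stream'.const 1)
  refine ⟨U, hU, ?_⟩
  have key : ∀ (a : Stream' ℕ) (m : ℕ), m ∈ Hindman.FS a → (∀ n, 1 ≤ a.get n) → 1 ≤ m := by
    intro a m hm
    induction hm with
    | head' a => intro h; exact h 0
    | tail' a m _ ih => intro h; exact ih (fun n => h (n + 1))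
    | cons' a m _ ih => intro h; exact le_trans (h 0) (Nat.le_add_right _ _)
  filter_upwards [hU2] with m hm
  exact key _ m hm (fun n => le_rfl)

lemma exists_seq_of_large {U : Ultrafilter ℕ} (hU : U + U = U) {D : Set ℕ} (hD : D ∈ U) :
    ∃ b : ℕ → ℕ, ∀ S : Finset ℕ, S.Nonempty → ∑ i ∈ S, b i ∈ D := by
  obtain ⟨a, ha⟩ := Hindman.exists_FS_of_large U hU D hD
  exact ⟨fun i => a.get i, fun S hS => ha (Hindman.FS.finsetSum a S hS)⟩

/-- for an idempotent ultrafilter, most return times keep piecewise syndeticity -/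
lemma ret_large {U : Ultrafilter ℕ} (hU : U + U = U) {A : Set ℕ} (hA : PS A) (F : Finset ℕ) :
    ∀ᶠ b in (U : Filter ℕ), PS (ret A F b) := by
  by_contra hcon
  have hD : {b | ¬ PS (ret A F b)} ∈ U := Ultrafilter.eventually_not.mpr hcon
  obtain ⟨b, hb⟩ := exists_seq_of_large hU hD
  obtain ⟨S, hS, hS2⟩ := ip_vdw hA F b
  exact hb S hS hS2

/-- the invariant of the construction -/
def Inv {r : ℕ} (c : ℕ → Fin r) (A : Set ℕ) (k : Fin r) (E : Finset ℕ) : Prop :=
  (∀ t ∈ E, c (2 ^ t) = k) ∧ PS {m | m ∈ A ∧ ∀ t ∈ E, m + t ∈ A}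

lemma Inv.step {r : ℕ} {c : ℕ → Fin r} {A : Set ℕ} {k : Fin r} {U : Ultrafilter ℕ}
    (hU : U + U = U) (hU1 : ∀ᶠ m in (U : Filter ℕ), 1 ≤ m)
    (hA : ∀ n ∈ A, ∀ᶠ b in (U : Filter ℕ), c (2 ^ (2 ^ n * b)) = k)
    {E : Finset ℕ} (hE : Inv c A k E) (y : ℕ) :
    ∃ y', y < y' ∧ Inv c A k (E ∪ {y'} ∪ E.image (fun t => y' * 2 ^ t)) := by
  classical
  obtain ⟨hE1, hE2⟩ := hE
  obtain ⟨m, ⟨hmA, hmE⟩, hmy⟩ := hE2.exists_ge y
  let F : Finset ℕ := {2 ^ m} ∪ E.image (fun t => 2 ^ (m + t))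
  have h1 := ret_large hU hE2 F
  have h2 := hA m hmA
  have h3 : ∀ᶠ b in (U : Filter ℕ), ∀ t ∈ E, c (2 ^ (2 ^ (m + t) * b)) = k := by
    rw [Filter.eventually_all_finset]
    intro t ht
    exact hA _ (hmE t ht)
  obtain ⟨b, hb0, hb1, hb2, hb3⟩ := (hU1.and (h1.and (h2.and h3))).exists
  refine ⟨2 ^ m * b, ?_, ?_, ?_⟩
  · calc y ≤ m := hmy
      _ < 2 ^ m := Nat.lt_two_pow_self
      _ = 2 ^ m * 1 := (mul_one _).symm
      _ ≤ 2 ^ m * b := Nat.mul_le_mul_left _ hb0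
  · intro t ht
    simp only [Finset.mem_union, Finset.mem_singleton, Finset.mem_image] at ht
    rcases ht with (ht | rfl) | ⟨u, hu, rfl⟩
    · exact hE1 t ht
    · exact hb2
    · have e : 2 ^ m * b * 2 ^ u = 2 ^ (m + u) * b := by rw [pow_add]; ring
      rw [e]
      exact hb3 u hu
  · refine hb1.mono ?_
    rintro a ⟨⟨ha1, ha2⟩, ha3⟩
    refine ⟨ha1, fun t ht => ?_⟩
    simp only [Finset.mem_union, Finset.mem_singleton, Finset.mem_image] at ht
    rcases ht with (ht | rfl) | ⟨u, hu, rfl⟩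
    · exact ha2 t ht
    · exact (ha3 (2 ^ m) (by simp [F])).1
    · have e : 2 ^ m * b * 2 ^ u = 2 ^ (m + u) * b := by rw [pow_add]; ring
      rw [e]
      exact (ha3 (2 ^ (m + u)) (Finset.mem_union_right _ (Finset.mem_image_of_mem _ hu))).1

theorem typeII_all (r : ℕ) (c : ℕ → Fin r) : ∃ i, IsExpIPII {n | c n = i} := by
  classical
  obtain ⟨U, hU, hU1⟩ := exists_idem
  have hρ : ∀ n : ℕ, ∃ k : Fin r, ∀ᶠ b in (U : Filter ℕ), c (2 ^ (2 ^ n * b)) = k := by
    intro n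
    have : ∀ᶠ b in (U : Filter ℕ), ∃ k : Fin r, c (2 ^ (2 ^ n * b)) = k :=
      Filter.Eventually.of_forall fun b => ⟨_, rfl⟩
    rwa [Ultrafilter.eventually_exists_iff] at this
  choose ρ hρ using hρ
  have hPS : PS (⋃ k ∈ (Finset.univ : Finset (Fin r)), {n | ρ n = k}) := by
    refine PS_univ.mono ?_
    intro n _
    simp
  obtain ⟨k, _, hk⟩ := PS.biUnion _ _ hPS
  refine ⟨k, ?_⟩
  set A : Set ℕ := {n | ρ n = k} with hAdef
  have hA : ∀ n ∈ A, ∀ᶠ b in (U : Filter ℕ), c (2 ^ (2 ^ n * b)) = k := by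
    intro n hn
    have := hρ n
    rwa [show ρ n = k from hn] at this
  have h0 : Inv c A k ∅ := ⟨by simp, by simpa using hk⟩
  let St := {p : Finset ℕ × ℕ // Inv c A k p.1}
  have hstep : ∀ s : St, ∃ y', s.1.2 < y' ∧
      Inv c A k (s.1.1 ∪ {y'} ∪ s.1.1.image (fun t => y' * 2 ^ t)) := fun s =>
    Inv.step hU hU1 hA s.2 s.1.2
  choose nx hnx1 hnx2 using hstep
  let next : St → St := fun s => ⟨(s.1.1 ∪ {nx s} ∪ s.1.1.image (fun t => nx s * 2 ^ t), nx s), hnx2 s⟩
  let start : St := ⟨(∅, 0), h0⟩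
  let seq : ℕ → St := fun n => (next^[n + 1]) start
  have hseq : ∀ n, seq (n + 1) = next (seq n) := fun n => by
    simp only [seq]
    rw [Function.iterate_succ_apply']
  let y : ℕ → ℕ := fun n => (seq n).1.2
  let E : ℕ → Finset ℕ := fun n => (seq n).1.1
  have hy : ∀ n, y n < y (n + 1) := by
    intro n
    have := hnx1 (seq n)
    simp only [y]
    rw [hseq]
    exact this
  have hE : ∀ n, E (n + 1) = E n ∪ {y (n + 1)} ∪ (E n).image (fun t => y (n + 1) * 2 ^ t) := by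
    intro n
    simp only [E, y]
    rw [hseq]
  have hE0 : E 0 = {y 0} := by
    simp [E, y, seq, next, start]
  refine ⟨fun n => 2 ^ y n, strictMono_nat_of_lt_succ fun n => Nat.pow_lt_pow_right (by norm_num) (hy n), ?_⟩
  have key : ∀ n, ∀ z ∈ FEII (fun n => 2 ^ y n) n, ∃ t ∈ E n, z = 2 ^ t := by
    intro n
    induction n with
    | zero =>
      intro z hz
      exact ⟨y 0, by rw [hE0]; simp, hz⟩
    | succ n ih =>
      intro z hz
      rcases hz with (⟨w, hw, rfl⟩ | hz) | hz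
      · obtain ⟨t, ht, rfl⟩ := ih w hw
        refine ⟨y (n + 1) * 2 ^ t, ?_, ?_⟩
        · rw [hE]
          exact Finset.mem_union_right _ (Finset.mem_image_of_mem _ ht)
        · rw [pow_mul]
      · obtain ⟨t, ht, rfl⟩ := ih z hz
        refine ⟨t, ?_, rfl⟩
        rw [hE]
        exact Finset.mem_union_left _ (Finset.mem_union_left _ ht)
      · refine ⟨y (n + 1), ?_, hz⟩
        rw [hE]
        simp
  intro n z hz
  obtain ⟨t, ht, rfl⟩ := key n z hz
  exact (seq n).2.1 t ht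

end Pool.Agent.Helper542ExpIP
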